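import Pool.Agent.Work.MP_1a5986_lc.Few.Types

namespace Pool.Agent.Work.MP_1a5986_lc.Few

open Finset

set_option linter.unusedSectionVars false

variable {ι : Type} [Fintype ι] [DecidableEq ι] {κ : Type} [Fintype κ] [DecidableEq κ]

/-- the size of a type -/
def sz (τ : ι → κ) (t : κ) : ℤ := ((Finset.univ.filter fun x => τ x = t).card : ℤ)

theorem sz_eq (τ : ι → κ) (t : κ) : sz τ t = ∑ x, if τ x = t then (1 : ℤ) else 0 := by
  unfold sz
  rw [Finset.card_filter]
  push_cast
  rfl

theorem blk_add (τ : ι → κ) {W : ι → ι → ℤ} (hW : IsT W) {s t : κ}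
    (hfull : ∀ x y, τ x = s → τ y = t → x ≠ y → W x y + W y x = 1) :
    blk τ W s t + blk τ W t s = sz τ s * sz τ t - if s = t then sz τ s else 0 := by
  have h1 : blk τ W t s = ∑ x, ∑ y, if τ x = s ∧ τ y = t then W y x else 0 := by
    unfold blk
    rw [Finset.sum_comm]
    refine Finset.sum_congr rfl fun x _ => Finset.sum_congr rfl fun y _ => ?_
    simp only [and_comm]
  rw [h1]
  unfold blk
  rw [← Finset.sum_add_distrib]
  have h2 : ∀ x, (∑ y, if τ x = s ∧ τ y = t then W x y else 0)
      + (∑ y, if τ x = s ∧ τ y = t then W y x else 0)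
      = (if τ x = s then (1 : ℤ) else 0) * sz τ t
        - (if s = t then (if τ x = s then (1 : ℤ) else 0) else 0) := by
    intro x
    rw [← Finset.sum_add_distrib, sz_eq, Finset.mul_sum]
    have h3 : (if s = t then (if τ x = s then (1 : ℤ) else 0) else 0)
        = ∑ y, if x = y then (if s = t then (if τ x = s then (1 : ℤ) else 0) else 0) else 0 := by
      simp
    rw [h3, ← Finset.sum_sub_distrib]
    refine Finset.sum_congr rfl fun y _ => ?_
    by_cases hx : τ x = s
    · by_cases hy : τ y = t
      · by_cases hxy : x = y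
        · subst hxy
          have hst : s = t := hx.symm.trans hy
          subst hst
          simp [hx, hW.self]
        · have := hfull x y hx hy hxy
          simp [hx, hy, hxy, this]
      · by_cases hxy : x = y
        · subst hxy
          have hst : ¬ s = t := fun e => hy (hx.trans e)
          simp [hx, hy, hst]
        · simp [hx, hy, hxy]
    · simp [hx]
  simp only [h2, Finset.sum_sub_distrib, ← Finset.sum_mul]
  rw [← sz_eq]
  congr 1
  by_cases hst : s = t
  · simp only [hst, if_true]
    exact (sz_eq τ t).symm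
  · simp [hst]

/-- Prescribed block totals are possible. -/
theorem exists_blocks (τ : ι → κ) (a : κ → κ → ℤ) (ha : ∀ s t, 0 ≤ a s t)
    (h1 : ∀ s t, s ≠ t → a s t + a t s ≤ sz τ s * sz τ t)
    (h2 : ∀ s, 2 * a s s ≤ sz τ s * sz τ s - sz τ s) :
    ∃ W : ι → ι → ℤ, IsT W ∧ ∀ s t, blk τ W s t = a s t := by
  let A : Set (ι → ι → ℤ) := {W | IsT W ∧ ∀ s t, blk τ W s t ≤ a s t}
  let tot : (ι → ι → ℤ) → ℤ := fun W => ∑ x, ∑ y, W x y
  have hbd : ∀ W ∈ A, tot W ≤ (Fintype.card ι : ℤ) * (Fintype.card ι : ℤ) := by
    intro W hW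
    have : tot W ≤ ∑ x : ι, ∑ y : ι, (1 : ℤ) :=
      Finset.sum_le_sum fun x _ => Finset.sum_le_sum fun y _ => by
        rcases hW.1.1 x y with h | h <;> omega
    simpa using this
  obtain ⟨W, hW, hmin⟩ := WellFounded.has_min
    (measure fun W : ι → ι → ℤ =>
      ((Fintype.card ι : ℤ) * (Fintype.card ι : ℤ) - tot W).toNat).wf A
    ⟨fun _ _ => 0, ⟨fun _ _ => Or.inl rfl, fun _ _ => by norm_num⟩, fun s t => by
      simp only [blk, ite_self, Finset.sum_const_zero]
      exact ha s t⟩
  refine ⟨W, hW.1, fun s t => ?_⟩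
  by_contra hne
  have hlt : blk τ W s t < a s t := lt_of_le_of_ne (hW.2 s t) hne
  -- there is a drawn match
  have hex : ∃ x y, τ x = s ∧ τ y = t ∧ x ≠ y ∧ W x y = 0 ∧ W y x = 0 := by
    by_contra hno
    push Not at hno
    have hfull : ∀ x y, τ x = s → τ y = t → x ≠ y → W x y + W y x = 1 := by
      intro x y hx hy hxy
      have h3 := hno x y hx hy hxy
      rcases hW.1.1 x y with h4 | h4 <;> rcases hW.1.1 y x with h5 | h5
      · exact absurd h5 (h3 h4)
      · omega
      · omega
      · have := hW.1.2 x y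
        omega
    have h3 := blk_add τ hW.1 hfull
    have h4 := hW.2 t s
    by_cases hst : s = t
    · subst hst
      have h5 := h2 s
      rw [if_pos rfl] at h3
      linarith
    · have h5 := h1 s t hst
      rw [if_neg hst] at h3
      linarith
  obtain ⟨i, j, hi, hj, hij, h01, h10⟩ := hex
  let W' : ι → ι → ℤ := fun x y => W x y + if x = i ∧ y = j then 1 else 0
  have hW' : IsT W' := by
    constructor
    · intro x y
      by_cases h : x = i ∧ y = j
      · right
        simp [W', h, h01]
      · rcases hW.1.1 x y with h3 | h3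
        · left; simp [W', h, h3]
        · right; simp [W', h, h3]
    · intro x y
      have := hW.1.2 x y
      by_cases h : x = i ∧ y = j
      · have h' : ¬ (y = i ∧ x = j) := fun e => hij (h.1 ▸ e.2 ▸ rfl)
        simp only [W', h', if_false]
        simp [h, h01, h10]
      · by_cases h' : y = i ∧ x = j
        · simp only [W', h, if_false]
          simp [h', h01, h10]
        · simp only [W', h, h', if_false]
          omega
  have hblk : ∀ s' t', blk τ W' s' t' = blk τ W s' t' + if s' = s ∧ t' = t then 1 else 0 := by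
    intro s' t'
    have h3 : (if s' = s ∧ t' = t then (1 : ℤ) else 0)
        = ∑ x, ∑ y, if x = i ∧ y = j then (if s' = s ∧ t' = t then (1 : ℤ) else 0) else 0 := by
      simp only [ite_and, Finset.sum_ite_eq', Finset.mem_univ, if_true]
      rw [Finset.sum_eq_single i]
      · simp
      · intro x _ hx
        simp [hx]
      · simp
    rw [h3]
    unfold blk
    rw [← Finset.sum_add_distrib]
    refine Finset.sum_congr rfl fun x _ => ?_
    rw [← Finset.sum_add_distrib]
    refine Finset.sum_congr rfl fun y _ => ?_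
    by_cases h : x = i ∧ y = j
    · obtain ⟨rfl, rfl⟩ := h
      by_cases h4 : s' = s ∧ t' = t
      · obtain ⟨rfl, rfl⟩ := h4
        simp [W', hi, hj]
      · have h5 : ¬ (τ x = s' ∧ τ y = t') := by
          rintro ⟨e1, e2⟩
          exact h4 ⟨e1.symm.trans hi, e2.symm.trans hj⟩
        simp [h4, h5]
    · simp [W', h]
  have hA' : W' ∈ A := by
    refine ⟨hW', fun s' t' => ?_⟩
    rw [hblk]
    by_cases h4 : s' = s ∧ t' = t
    · obtain ⟨rfl, rfl⟩ := h4
      simp only [and_self, if_true]
      omega
    · rw [if_neg h4, add_zero]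
      exact hW.2 _ _
  have htot : tot W' = tot W + 1 := by
    have h3 : (1 : ℤ) = ∑ x, ∑ y, if x = i ∧ y = j then (1 : ℤ) else 0 := by
      simp only [ite_and, Finset.sum_ite_eq', Finset.mem_univ, if_true]
      rw [Finset.sum_eq_single i]
      · simp
      · intro x _ hx
        simp [hx]
      · simp
    conv_rhs => rw [h3]
    simp only [tot, W', Finset.sum_add_distrib]
  have h5 := hmin W' hA'
  apply h5
  change ((Fintype.card ι : ℤ) * (Fintype.card ι : ℤ) - tot W').toNat
    < ((Fintype.card ι : ℤ) * (Fintype.card ι : ℤ) - tot W).toNat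
  have h6 := hbd W' hA'
  rw [htot] at h6 ⊢
  omega

end Pool.Agent.Work.MP_1a5986_lc.Few
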