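import Pool.Agent.Work.MP_1a5986_lc.Pad

namespace Pool.Agent.Work.MP_1a5986_lc.Few

open Finset

set_option linter.unusedSectionVars false

variable {ι : Type} [Fintype ι] [DecidableEq ι]

/-- A 0-1 matrix without loops and opposite arcs: `W x y = 1` means that `x` beats `y`. -/
def IsT (W : ι → ι → ℤ) : Prop :=
  (∀ x y, W x y = 0 ∨ W x y = 1) ∧ ∀ x y, W x y + W y x ≤ 1

/-- number of wins -/
def out (W : ι → ι → ℤ) (x : ι) : ℤ := ∑ y, W x y

/-- number of losses -/
def inn (W : ι → ι → ℤ) (x : ι) : ℤ := ∑ y, W y x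

theorem IsT.self {W : ι → ι → ℤ} (h : IsT W) (x : ι) : W x x = 0 := by
  rcases h.1 x x with h1 | h1
  · exact h1
  · have := h.2 x x
    omega

/-- the matches exchanged in the swap of `i` and `j` at `S` -/
def swP (i j : ι) (S : Finset ι) (x y : ι) : Prop :=
  ((x = i ∨ x = j) ∧ (y = i ∨ y = j) ∧ i ∈ S) ∨ ((x = i ∨ x = j) ∧ ¬ (y = i ∨ y = j) ∧ y ∈ S) ∨
    (¬ (x = i ∨ x = j) ∧ (y = i ∨ y = j) ∧ x ∈ S)

instance (i j : ι) (S : Finset ι) (x y : ι) : Decidable (swP i j S x y) := by
  unfold swP; infer_instance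

/-- exchange of results of `i` and `j` -/
def sw (W : ι → ι → ℤ) (i j : ι) (S : Finset ι) : ι → ι → ℤ := fun x y =>
  if swP i j S x y then W (Equiv.swap i j x) (Equiv.swap i j y) else W x y

theorem swP_symm (i j : ι) (S : Finset ι) (x y : ι) : swP i j S x y ↔ swP i j S y x := by
  unfold swP; tauto

theorem swP_swap (i j : ι) (S : Finset ι) (x y : ι) :
    swP i j S (Equiv.swap i j x) (Equiv.swap i j y) ↔ swP i j S x y := by
  have h1 : ∀ z, (Equiv.swap i j z = i ∨ Equiv.swap i j z = j) ↔ (z = i ∨ z = j) := by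
    intro z
    rcases eq_or_ne z i with rfl | hi
    · simp
    · rcases eq_or_ne z j with rfl | hj
      · simp
      · rw [Equiv.swap_apply_of_ne_of_ne hi hj]
  have h2 : ∀ z, ¬ (z = i ∨ z = j) → Equiv.swap i j z = z := by
    intro z hz
    push Not at hz
    exact Equiv.swap_apply_of_ne_of_ne hz.1 hz.2
  unfold swP
  rw [h1, h1]
  by_cases hx : x = i ∨ x = j <;> by_cases hy : y = i ∨ y = j
  · simp [hx, hy]
  · simp [hx, hy, h2 y hy]
  · simp [hx, hy, h2 x hx]
  · simp [hx, hy]

theorem sw_isT {W : ι → ι → ℤ} (h : IsT W) (i j : ι) (S : Finset ι) : IsT (sw W i j S) := by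
  constructor
  · intro x y
    unfold sw
    split
    · exact h.1 _ _
    · exact h.1 _ _
  · intro x y
    unfold sw
    by_cases hp : swP i j S x y
    · rw [if_pos hp, if_pos ((swP_symm i j S x y).1 hp)]
      exact h.2 _ _
    · rw [if_neg hp, if_neg (fun h' => hp ((swP_symm i j S x y).2 h'))]
      exact h.2 _ _

/-- The contribution of `z` to the difference of the wins of `i` and `j`. -/
def dw (W : ι → ι → ℤ) (i j z : ι) : ℤ :=
  if z = j then 0 else if z = i then W i j - W j i else W i z - W j z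

/-- The contribution of `z` to the difference of the losses of `i` and `j`. -/
def dl (W : ι → ι → ℤ) (i j z : ι) : ℤ :=
  if z = j then 0 else if z = i then W j i - W i j else W z i - W z j

theorem sum_dw {W : ι → ι → ℤ} (h : IsT W) {i j : ι} (hij : i ≠ j) :
    ∑ z, dw W i j z = out W i - out W j := by
  have h1 : ∀ z, dw W i j z = (W i z - W j z) + (if z = i then W i j else 0)
      - (if z = j then W i j else 0) := by
    intro z
    unfold dw
    rcases eq_or_ne z j with rfl | hj
    · have : z ≠ i := fun e => hij e.symm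
      simp [this, h.self]
    · rcases eq_or_ne z i with rfl | hi
      · simp [hij, h.self]; ring
      · simp [hi, hj]
  simp only [h1, Finset.sum_add_distrib, Finset.sum_sub_distrib, Finset.sum_ite_eq',
    Finset.mem_univ, if_true]
  unfold out
  ring

theorem sum_dl {W : ι → ι → ℤ} (h : IsT W) {i j : ι} (hij : i ≠ j) :
    ∑ z, dl W i j z = inn W i - inn W j := by
  have h1 : ∀ z, dl W i j z = (W z i - W z j) + (if z = i then W j i else 0)
      - (if z = j then W j i else 0) := by
    intro z
    unfold dl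
    rcases eq_or_ne z j with rfl | hj
    · have : z ≠ i := fun e => hij e.symm
      simp [this, h.self]
    · rcases eq_or_ne z i with rfl | hi
      · simp [hij, h.self]; ring
      · simp [hi, hj]
  simp only [h1, Finset.sum_add_distrib, Finset.sum_sub_distrib, Finset.sum_ite_eq',
    Finset.mem_univ, if_true]
  unfold inn
  ring

theorem root {W : ι → ι → ℤ} (h : IsT W) (i j z : ι) :
    (dw W i j z = 0 ∧ dl W i j z = 0) ∨ (dw W i j z = 1 ∧ dl W i j z = 0) ∨
    (dw W i j z = -1 ∧ dl W i j z = 0) ∨ (dw W i j z = 0 ∧ dl W i j z = 1) ∨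
    (dw W i j z = 0 ∧ dl W i j z = -1) ∨ (dw W i j z = 1 ∧ dl W i j z = -1) ∨
    (dw W i j z = -1 ∧ dl W i j z = 1) := by
  unfold dw dl
  by_cases hj : z = j
  · simp [hj]
  · by_cases hi : z = i
    · simp only [hi, if_true]
      have a1 := h.1 i j
      have a2 := h.1 j i
      have a3 := h.2 i j
      split_ifs <;> omega
    · simp only [hi, hj, if_false]
      have a1 := h.1 i z
      have a2 := h.1 z i
      have a3 := h.2 i z
      have b1 := h.1 j z
      have b2 := h.1 z j
      have b3 := h.2 j z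
      omega

/-- Other teams keep their results. -/
theorem sw_out_other {W : ι → ι → ℤ} {i j : ι} (hij : i ≠ j) (S : Finset ι) {k : ι}
    (hi : k ≠ i) (hj : k ≠ j) : out (sw W i j S) k = out W k := by
  unfold out
  have hk : Equiv.swap i j k = k := Equiv.swap_apply_of_ne_of_ne hi hj
  by_cases hS : k ∈ S
  · have h1 : ∀ y, sw W i j S k y = W k (Equiv.swap i j y) := by
      intro y
      unfold sw
      rw [hk]
      by_cases hp : swP i j S k y
      · rw [if_pos hp]
      · rw [if_neg hp]
        have : ¬ (y = i ∨ y = j) := by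
          intro hy
          exact hp (Or.inr (Or.inr ⟨by tauto, hy, hS⟩))
        push Not at this
        rw [Equiv.swap_apply_of_ne_of_ne this.1 this.2]
    simp only [h1]
    exact Equiv.sum_comp (Equiv.swap i j) (fun y => W k y)
  · refine Finset.sum_congr rfl fun y _ => ?_
    unfold sw
    rw [if_neg]
    rintro (⟨h1, -⟩ | ⟨h1, -⟩ | ⟨-, -, h1⟩)
    · tauto
    · tauto
    · exact hS h1

theorem sw_inn_other {W : ι → ι → ℤ} {i j : ι} (hij : i ≠ j) (S : Finset ι) {k : ι}
    (hi : k ≠ i) (hj : k ≠ j) : inn (sw W i j S) k = inn W k := by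
  unfold inn
  have hk : Equiv.swap i j k = k := Equiv.swap_apply_of_ne_of_ne hi hj
  by_cases hS : k ∈ S
  · have h1 : ∀ y, sw W i j S y k = W (Equiv.swap i j y) k := by
      intro y
      unfold sw
      rw [hk]
      by_cases hp : swP i j S y k
      · rw [if_pos hp]
      · rw [if_neg hp]
        have : ¬ (y = i ∨ y = j) := by
          intro hy
          exact hp (Or.inr (Or.inl ⟨hy, by tauto, hS⟩))
        push Not at this
        rw [Equiv.swap_apply_of_ne_of_ne this.1 this.2]
    simp only [h1]
    exact Equiv.sum_comp (Equiv.swap i j) (fun y => W y k)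
  · refine Finset.sum_congr rfl fun y _ => ?_
    unfold sw
    rw [if_neg]
    rintro (⟨-, h1, -⟩ | ⟨-, -, h1⟩ | ⟨-, h1, -⟩)
    · tauto
    · exact hS h1
    · tauto

theorem sw_out_i {W : ι → ι → ℤ} (h : IsT W) {i j : ι} (hij : i ≠ j) (S : Finset ι) :
    out (sw W i j S) i = out W i - ∑ z ∈ S, dw W i j z := by
  have h1 : ∀ z, sw W i j S i (Equiv.swap i j z)
      = W i (Equiv.swap i j z) - if z ∈ S then dw W i j z else 0 := by
    intro z
    unfold sw dw
    rcases eq_or_ne z i with rfl | hi
    · rw [Equiv.swap_apply_left]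
      by_cases hS : z ∈ S
      · have hp : swP z j S z j := Or.inl ⟨Or.inl rfl, Or.inr rfl, hS⟩
        rw [if_pos hp, Equiv.swap_apply_right]
        simp [hS, hij]
      · rw [if_neg]
        · simp [hS]
        · rintro (⟨-, -, h2⟩ | ⟨-, h2, -⟩ | ⟨h2, -⟩)
          · exact hS h2
          · exact h2 (Or.inr rfl)
          · exact h2 (Or.inl rfl)
    · rcases eq_or_ne z j with rfl | hj
      · rw [Equiv.swap_apply_right]
        simp only [if_true, ite_self, sub_zero]
        split
        · rw [Equiv.swap_apply_left, h.self, h.self]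
        · rfl
      · rw [Equiv.swap_apply_of_ne_of_ne hi hj]
        by_cases hS : z ∈ S
        · have hp : swP i j S i z := Or.inr (Or.inl ⟨Or.inl rfl, by tauto, hS⟩)
          rw [if_pos hp, Equiv.swap_apply_left, Equiv.swap_apply_of_ne_of_ne hi hj]
          simp [hS, hi, hj]
        · rw [if_neg]
          · simp [hS]
          · rintro (⟨-, h2, -⟩ | ⟨-, -, h2⟩ | ⟨-, h2, -⟩)
            · tauto
            · exact hS h2
            · tauto
  have h2 : out (sw W i j S) i = ∑ z, sw W i j S i (Equiv.swap i j z) :=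
    (Equiv.sum_comp (Equiv.swap i j) (fun y => sw W i j S i y)).symm
  have h3 : out W i = ∑ z, W i (Equiv.swap i j z) :=
    (Equiv.sum_comp (Equiv.swap i j) (fun y => W i y)).symm
  rw [h2, h3]
  simp only [h1, Finset.sum_sub_distrib]
  rw [Finset.sum_ite_mem, Finset.univ_inter]

theorem sw_inn_i {W : ι → ι → ℤ} (h : IsT W) {i j : ι} (hij : i ≠ j) (S : Finset ι) :
    inn (sw W i j S) i = inn W i - ∑ z ∈ S, dl W i j z := by
  have h1 : ∀ z, sw W i j S (Equiv.swap i j z) i
      = W (Equiv.swap i j z) i - if z ∈ S then dl W i j z else 0 := by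
    intro z
    unfold sw dl
    rcases eq_or_ne z i with rfl | hi
    · rw [Equiv.swap_apply_left]
      by_cases hS : z ∈ S
      · have hp : swP z j S j z := Or.inl ⟨Or.inr rfl, Or.inl rfl, hS⟩
        rw [if_pos hp, Equiv.swap_apply_right]
        simp [hS, hij]
      · rw [if_neg]
        · simp [hS]
        · rintro (⟨-, -, h2⟩ | ⟨-, h2, -⟩ | ⟨h2, -⟩)
          · exact hS h2
          · exact h2 (Or.inl rfl)
          · exact h2 (Or.inr rfl)
    · rcases eq_or_ne z j with rfl | hj
      · rw [Equiv.swap_apply_right]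
        simp only [if_true, ite_self, sub_zero]
        split
        · rw [Equiv.swap_apply_left, h.self, h.self]
        · rfl
      · rw [Equiv.swap_apply_of_ne_of_ne hi hj]
        by_cases hS : z ∈ S
        · have hp : swP i j S z i := Or.inr (Or.inr ⟨by tauto, Or.inl rfl, hS⟩)
          rw [if_pos hp, Equiv.swap_apply_left, Equiv.swap_apply_of_ne_of_ne hi hj]
          simp [hS, hi, hj]
        · rw [if_neg]
          · simp [hS]
          · rintro (⟨h2, -⟩ | ⟨h2, -⟩ | ⟨-, -, h2⟩)
            · tauto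
            · tauto
            · exact hS h2
  have h2 : inn (sw W i j S) i = ∑ z, sw W i j S (Equiv.swap i j z) i :=
    (Equiv.sum_comp (Equiv.swap i j) (fun y => sw W i j S y i)).symm
  have h3 : inn W i = ∑ z, W (Equiv.swap i j z) i :=
    (Equiv.sum_comp (Equiv.swap i j) (fun y => W y i)).symm
  rw [h2, h3]
  simp only [h1, Finset.sum_sub_distrib]
  rw [Finset.sum_ite_mem, Finset.univ_inter]

/-- The total number of arcs, restricted to types, does not change. -/
theorem sw_block {κ : Type} [DecidableEq κ] (τ : ι → κ) {i j : ι} (hτ : τ i = τ j)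
    (W : ι → ι → ℤ) (S : Finset ι) (s t : κ) :
    (∑ x, ∑ y, if τ x = s ∧ τ y = t then sw W i j S x y else 0)
      = ∑ x, ∑ y, if τ x = s ∧ τ y = t then W x y else 0 := by
  have hsw : ∀ z, τ (Equiv.swap i j z) = τ z := by
    intro z
    rcases eq_or_ne z i with rfl | hi
    · rw [Equiv.swap_apply_left, hτ]
    · rcases eq_or_ne z j with rfl | hj
      · rw [Equiv.swap_apply_right, hτ]
      · rw [Equiv.swap_apply_of_ne_of_ne hi hj]
  have h1 : ∀ f : ι → ι → ℤ, (∑ x, ∑ y, if τ x = s ∧ τ y = t then f x y else 0)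
      = (∑ x, ∑ y, if τ x = s ∧ τ y = t then (if swP i j S x y then f x y else 0) else 0)
        + ∑ x, ∑ y, if τ x = s ∧ τ y = t then (if swP i j S x y then 0 else f x y) else 0 := by
    intro f
    rw [← Finset.sum_add_distrib]
    refine Finset.sum_congr rfl fun x _ => ?_
    rw [← Finset.sum_add_distrib]
    refine Finset.sum_congr rfl fun y _ => ?_
    split_ifs <;> simp
  rw [h1, h1 W]
  congr 1
  · have h2 : (∑ x, ∑ y, if τ x = s ∧ τ y = t then (if swP i j S x y then W x y else 0) else 0)
        = ∑ x, ∑ y, if τ (Equiv.swap i j x) = s ∧ τ (Equiv.swap i j y) = t then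
            (if swP i j S (Equiv.swap i j x) (Equiv.swap i j y) then
              W (Equiv.swap i j x) (Equiv.swap i j y) else 0) else 0 := by
      rw [← Equiv.sum_comp (Equiv.swap i j)]
      refine Finset.sum_congr rfl fun x _ => ?_
      rw [← Equiv.sum_comp (Equiv.swap i j)]
    rw [h2]
    refine Finset.sum_congr rfl fun x _ => Finset.sum_congr rfl fun y _ => ?_
    rw [hsw, hsw]
    by_cases hp : swP i j S x y
    · rw [if_pos hp, if_pos ((swP_swap i j S x y).2 hp)]
      unfold sw
      rw [if_pos hp]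
    · rw [if_neg hp, if_neg (fun h' => hp ((swP_swap i j S x y).1 h'))]
  · refine Finset.sum_congr rfl fun x _ => Finset.sum_congr rfl fun y _ => ?_
    by_cases hp : swP i j S x y
    · rw [if_pos hp, if_pos hp]
    · rw [if_neg hp, if_neg hp]
      unfold sw
      rw [if_neg hp]

theorem sum_out_eq_sum_inn (W : ι → ι → ℤ) : ∑ x, out W x = ∑ x, inn W x := by
  unfold out inn
  exact Finset.sum_comm

/-- The sum of the wins of `i` and `j` does not change. -/
theorem sw_out_j {W : ι → ι → ℤ} (h : IsT W) {i j : ι} (hij : i ≠ j) (S : Finset ι) :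
    out (sw W i j S) j = out W j + ∑ z ∈ S, dw W i j z := by
  have ht : ∑ x, out (sw W i j S) x = ∑ x, out W x := by
    have h1 := sw_block (fun _ : ι => ()) (i := i) (j := j) rfl W S () ()
    simp only [and_self, if_true] at h1
    exact h1
  have h1 : ∀ f : ι → ℤ, ∑ x, f x = f i + f j + ∑ x ∈ (univ.erase i).erase j, f x := by
    intro f
    rw [add_assoc, Finset.add_sum_erase _ f (Finset.mem_erase.2 ⟨hij.symm, Finset.mem_univ j⟩),
      Finset.add_sum_erase _ f (Finset.mem_univ i)]
  rw [h1, h1 (out W)] at ht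
  have h2 : ∑ x ∈ (univ.erase i).erase j, out (sw W i j S) x
      = ∑ x ∈ (univ.erase i).erase j, out W x := by
    refine Finset.sum_congr rfl fun x hx => ?_
    rw [Finset.mem_erase, Finset.mem_erase] at hx
    exact sw_out_other hij S hx.2.1 hx.1
  rw [h2, sw_out_i h hij] at ht
  linarith

theorem sw_inn_j {W : ι → ι → ℤ} (h : IsT W) {i j : ι} (hij : i ≠ j) (S : Finset ι) :
    inn (sw W i j S) j = inn W j + ∑ z ∈ S, dl W i j z := by
  have ht : ∑ x, inn (sw W i j S) x = ∑ x, inn W x := by
    rw [← sum_out_eq_sum_inn, ← sum_out_eq_sum_inn]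
    have h1 := sw_block (fun _ : ι => ()) (i := i) (j := j) rfl W S () ()
    simp only [and_self, if_true] at h1
    exact h1
  have h1 : ∀ f : ι → ℤ, ∑ x, f x = f i + f j + ∑ x ∈ (univ.erase i).erase j, f x := by
    intro f
    rw [add_assoc, Finset.add_sum_erase _ f (Finset.mem_erase.2 ⟨hij.symm, Finset.mem_univ j⟩),
      Finset.add_sum_erase _ f (Finset.mem_univ i)]
  rw [h1, h1 (inn W)] at ht
  have h2 : ∑ x ∈ (univ.erase i).erase j, inn (sw W i j S) x
      = ∑ x ∈ (univ.erase i).erase j, inn W x := by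
    refine Finset.sum_congr rfl fun x hx => ?_
    rw [Finset.mem_erase, Finset.mem_erase] at hx
    exact sw_inn_other hij S hx.2.1 hx.1
  rw [h2, sw_inn_i h hij] at ht
  linarith

end Pool.Agent.Work.MP_1a5986_lc.Few
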