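import Pool.Agent.Work.MP_1a5986_lc.Defs

namespace Pool.Agent.Work.MP_1a5986_lc.Few

variable {k : ℕ}

/-- The number of teams of a type: `q u` of the `N u` teams of the class `u` have the type
`(u, true)`, the others have the type `(u, false)`. -/
def typeSize (N q : Fin k → ℕ) (t : Fin k × Bool) : ℕ := if t.2 then q t.1 else N t.1 - q t.1

/-- The number of wins of a team of a type: `W u` for `(u, false)` and `W u + 1` for
`(u, true)`. -/
def typeWins (W : Fin k → ℕ) (t : Fin k × Bool) : ℕ := if t.2 then W t.1 + 1 else W t.1

/-- `a s t` is a possible number of wins of the teams of type `s` over the teams of type `t`, if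
every team of type `s` wins `typeWins W s` matches and has `v s.1` points after `n - 1` matches,
with `p` points for a win and one point for a draw (so it has lost
`n - 1 + (p - 1) * typeWins W s - v s.1` matches). -/
structure Feasible (p n : ℕ) (N v W q : Fin k → ℕ) (a : Fin k × Bool → Fin k × Bool → ℕ) :
    Prop where
  q_le : ∀ u, q u ≤ N u
  block : ∀ s t, s ≠ t → a s t + a t s ≤ typeSize N q s * typeSize N q t
  inner : ∀ s, 2 * a s s ≤ typeSize N q s * (typeSize N q s - 1)
  wins : ∀ s, ∑ t, a s t = typeSize N q s * typeWins W s
  losses : ∀ s, ∑ t, a t s + typeSize N q s * v s.1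
    = typeSize N q s * (n - 1 + (p - 1) * typeWins W s)

end Pool.Agent.Work.MP_1a5986_lc.Few
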