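import Pool.Agent.Work.MP_1a5986_lc.Few.Types

namespace Pool.Agent.Work.MP_1a5986_lc.Few

open Finset

set_option linter.unusedSectionVars false

section

variable {α : Type} [DecidableEq α]

private def cl (S : Finset α) (f g : α → ℤ) (a b : ℤ) : Finset α :=
  S.filter fun z => f z = a ∧ g z = b

private theorem class_sum (S : Finset α) (f g : α → ℤ) (a b : ℤ) (n : ℕ)
    (h : n ≤ (cl S f g a b).card) :
    ∃ U ⊆ cl S f g a b, ∑ z ∈ U, f z = n * a ∧ ∑ z ∈ U, g z = n * b := by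
  obtain ⟨U, hU, hc⟩ := Finset.exists_subset_card_eq h
  refine ⟨U, hU, ?_, ?_⟩
  · rw [Finset.sum_congr rfl (fun z hz => (Finset.mem_filter.1 (hU hz)).2.1), Finset.sum_const,
      hc, nsmul_eq_mul]
  · rw [Finset.sum_congr rfl (fun z hz => (Finset.mem_filter.1 (hU hz)).2.2), Finset.sum_const,
      hc, nsmul_eq_mul]

private theorem comb3 (S : Finset α) (f g : α → ℤ) (a1 b1 a2 b2 a3 b3 : ℤ) (n1 n2 n3 : ℕ)
    (h12 : ¬ (a1 = a2 ∧ b1 = b2)) (h13 : ¬ (a1 = a3 ∧ b1 = b3)) (h23 : ¬ (a2 = a3 ∧ b2 = b3))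
    (h1 : n1 ≤ (cl S f g a1 b1).card) (h2 : n2 ≤ (cl S f g a2 b2).card)
    (h3 : n3 ≤ (cl S f g a3 b3).card) :
    ∃ U ⊆ S, ∑ z ∈ U, f z = n1 * a1 + n2 * a2 + n3 * a3 ∧
      ∑ z ∈ U, g z = n1 * b1 + n2 * b2 + n3 * b3 := by
  obtain ⟨U1, s1, f1, g1⟩ := class_sum S f g a1 b1 n1 h1
  obtain ⟨U2, s2, f2, g2⟩ := class_sum S f g a2 b2 n2 h2
  obtain ⟨U3, s3, f3, g3⟩ := class_sum S f g a3 b3 n3 h3
  have d12 : Disjoint U1 U2 := by
    rw [Finset.disjoint_left]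
    intro z z1 z2
    have e1 := (Finset.mem_filter.1 (s1 z1)).2
    have e2 := (Finset.mem_filter.1 (s2 z2)).2
    exact h12 ⟨e1.1.symm.trans e2.1, e1.2.symm.trans e2.2⟩
  have d123 : Disjoint (U1 ∪ U2) U3 := by
    rw [Finset.disjoint_left]
    intro z z12 z3
    have e3 := (Finset.mem_filter.1 (s3 z3)).2
    rcases Finset.mem_union.1 z12 with z1 | z2
    · have e1 := (Finset.mem_filter.1 (s1 z1)).2
      exact h13 ⟨e1.1.symm.trans e3.1, e1.2.symm.trans e3.2⟩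
    · have e2 := (Finset.mem_filter.1 (s2 z2)).2
      exact h23 ⟨e2.1.symm.trans e3.1, e2.2.symm.trans e3.2⟩
  refine ⟨U1 ∪ U2 ∪ U3, ?_, ?_, ?_⟩
  · refine Finset.union_subset (Finset.union_subset ?_ ?_) ?_
    · exact s1.trans (Finset.filter_subset _ _)
    · exact s2.trans (Finset.filter_subset _ _)
    · exact s3.trans (Finset.filter_subset _ _)
  · rw [Finset.sum_union d123, Finset.sum_union d12, f1, f2, f3]
  · rw [Finset.sum_union d123, Finset.sum_union d12, g1, g2, g3]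

private theorem card_cl (S : Finset α) (f g : α → ℤ) (a b : ℤ) :
    ((cl S f g a b).card : ℤ) = ∑ z ∈ S, if f z = a ∧ g z = b then (1 : ℤ) else 0 := by
  unfold cl
  rw [Finset.card_filter]
  push_cast
  rfl

/-- A part of the differences has sum (1, b). -/
theorem pick (S : Finset α) (f g : α → ℤ) (hr : ∀ z ∈ S, Root (f z) (g z)) (b : ℕ) (hb : 1 ≤ b)
    (t : ℤ) (ht : 1 ≤ t) (hf : ∑ z ∈ S, f z = t) (hg : ∑ z ∈ S, g z = b * t) :
    ∃ U ⊆ S, ∑ z ∈ U, f z = 1 ∧ ∑ z ∈ U, g z = b := by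
  have e1 : t = ((cl S f g 1 0).card : ℤ) - (cl S f g (-1) 0).card + (cl S f g 1 (-1)).card
      - (cl S f g (-1) 1).card := by
    rw [← hf]
    simp only [card_cl, ← Finset.sum_add_distrib, ← Finset.sum_sub_distrib]
    refine Finset.sum_congr rfl fun z hz => ?_
    rcases hr z hz with ⟨h1, h2⟩ | ⟨h1, h2⟩ | ⟨h1, h2⟩ | ⟨h1, h2⟩ | ⟨h1, h2⟩ | ⟨h1, h2⟩ |
      ⟨h1, h2⟩ <;> rw [h1, h2] <;> norm_num
  have e2 : b * t = ((cl S f g 0 1).card : ℤ) - (cl S f g 0 (-1)).card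
      - (cl S f g 1 (-1)).card + (cl S f g (-1) 1).card := by
    rw [← hg]
    simp only [card_cl, ← Finset.sum_add_distrib, ← Finset.sum_sub_distrib]
    refine Finset.sum_congr rfl fun z hz => ?_
    rcases hr z hz with ⟨h1, h2⟩ | ⟨h1, h2⟩ | ⟨h1, h2⟩ | ⟨h1, h2⟩ | ⟨h1, h2⟩ | ⟨h1, h2⟩ |
      ⟨h1, h2⟩ <;> rw [h1, h2] <;> norm_num
  have hbt : (b : ℤ) ≤ b * t := by nlinarith
  by_cases c2 : b ≤ (cl S f g 0 1).card
  · by_cases c1 : (cl S f g 1 0).card = 0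
    · -- b + 1 times (0,1) and one (1,-1)
      obtain ⟨U, hU, u1, u2⟩ := comb3 S f g 0 1 1 (-1) 0 0 (b + 1) 1 0 (by norm_num)
        (by norm_num) (by norm_num) (by omega) (by omega) (by omega)
      exact ⟨U, hU, by rw [u1]; push_cast; ring, by rw [u2]; push_cast; ring⟩
    · obtain ⟨U, hU, u1, u2⟩ := comb3 S f g 1 0 0 1 0 0 1 b 0 (by norm_num) (by norm_num)
        (by norm_num) (by omega) (by omega) (by omega)
      exact ⟨U, hU, by rw [u1]; push_cast; ring, by rw [u2]; push_cast; ring⟩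
  · obtain ⟨r, hr'⟩ := Nat.exists_eq_add_of_le (not_le.1 c2).le
    obtain ⟨U, hU, u1, u2⟩ := comb3 S f g 1 0 0 1 (-1) 1 (1 + r) (cl S f g 0 1).card r
      (by norm_num) (by norm_num) (by norm_num) (by omega) le_rfl (by omega)
    refine ⟨U, hU, by rw [u1]; push_cast; ring, ?_⟩
    rw [u2]
    have : (b : ℤ) = ((cl S f g 0 1).card : ℤ) + r := by exact_mod_cast hr'
    rw [this]
    ring

end

variable {ι : Type} [Fintype ι] [DecidableEq ι]

/-- Teams with the same score have almost the same number of wins. -/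
theorem ties (W₀ : ι → ι → ℤ) (h₀ : IsT W₀) (b : ℕ) (hb : 1 ≤ b) (σ : ι → ℤ)
    (hσ : ∀ x, b * out W₀ x - inn W₀ x = σ x) :
    ∃ W : ι → ι → ℤ, IsT W ∧ (∀ x, b * out W x - inn W x = σ x) ∧
      ∀ i j, σ i = σ j → out W i - out W j ≤ 1 := by
  let A : Set (ι → ι → ℤ) := {W | IsT W ∧ ∀ x, b * out W x - inn W x = σ x}
  let Ψ : (ι → ι → ℤ) → ℤ := fun W => ∑ x, out W x * out W x
  have hΨ0 : ∀ W, 0 ≤ Ψ W := fun W => Finset.sum_nonneg fun x _ => mul_self_nonneg _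
  obtain ⟨W, hW, hmin⟩ := WellFounded.has_min (measure fun W : ι → ι → ℤ => (Ψ W).toNat).wf A
    ⟨W₀, h₀, hσ⟩
  refine ⟨W, hW.1, hW.2, fun i j hij => ?_⟩
  by_contra hgt
  have hgt' : 2 ≤ out W i - out W j := by omega
  have hne : i ≠ j := by
    rintro rfl
    omega
  have h1 := hW.2 i
  have h2 := hW.2 j
  obtain ⟨U, -, hU1, hU2⟩ := pick Finset.univ (dw W i j) (dl W i j)
    (fun z _ => root hW.1 i j z) b hb (out W i - out W j) (by omega) (sum_dw hW.1 hne)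
    (by rw [sum_dl hW.1 hne]; linarith)
  have o1 := sw_out_i hW.1 hne U
  have o2 := sw_out_j hW.1 hne U
  have n1 := sw_inn_i hW.1 hne U
  have n2 := sw_inn_j hW.1 hne U
  rw [hU1] at o1 o2
  rw [hU2] at n1 n2
  have hA : sw W i j U ∈ A := by
    refine ⟨sw_isT hW.1 i j U, fun x => ?_⟩
    rcases eq_or_ne x i with rfl | hxi
    · rw [o1, n1]; linarith
    · rcases eq_or_ne x j with rfl | hxj
      · rw [o2, n2]; linarith
      · rw [sw_out_other hne U hxi hxj, sw_inn_other hne U hxi hxj]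
        exact hW.2 x
  have hs : ∀ f : ι → ℤ, ∑ x, f x = f i + f j + ∑ x ∈ (univ.erase i).erase j, f x := by
    intro f
    rw [add_assoc, Finset.add_sum_erase _ f (Finset.mem_erase.2 ⟨hne.symm, Finset.mem_univ j⟩),
      Finset.add_sum_erase _ f (Finset.mem_univ i)]
  have hlt : Ψ (sw W i j U) < Ψ W := by
    simp only [Ψ]
    rw [hs, hs (fun x => out W x * out W x)]
    have h3 : ∑ x ∈ (univ.erase i).erase j, out (sw W i j U) x * out (sw W i j U) x
        = ∑ x ∈ (univ.erase i).erase j, out W x * out W x := by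
      refine Finset.sum_congr rfl fun x hx => ?_
      rw [Finset.mem_erase, Finset.mem_erase] at hx
      rw [sw_out_other hne U hx.2.1 hx.1]
    rw [h3, o1, o2]
    nlinarith
  have h4 := hmin _ hA
  apply h4
  change (Ψ (sw W i j U)).toNat < (Ψ W).toNat
  have := hΨ0 (sw W i j U)
  omega

end Pool.Agent.Work.MP_1a5986_lc.Few
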