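import Pool.Agent.Work.MP_1a5986_lc.Few.FewDefs
import Pool.Agent.Work.MP_1a5986_lc.Few.Blocks
import Pool.Agent.Work.MP_1a5986_lc.Few.Ties

namespace Pool.Agent.Work.MP_1a5986_lc.Few

open Finset

set_option linter.unusedSectionVars false

section

variable {ι : Type} [Fintype ι] [DecidableEq ι] {κ : Type} [Fintype κ] [DecidableEq κ]

theorem isT_of_tournament (T : Tournament ι) : IsT T.W :=
  ⟨T.W_cases, T.W_add⟩

/-- The tournament of a matrix. -/
def ofW (W : ι → ι → ℤ) (hW : IsT W) : Tournament ι where
  res x y := if W x y = 1 then Res.win else if W y x = 1 then Res.loss else Res.draw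
  res_swap := by
    intro x y _
    have h := hW.2 x y
    rcases hW.1 x y with h1 | h1 <;> rcases hW.1 y x with h2 | h2
    · simp [h1, h2, Res.swap]
    · simp [h1, h2, Res.swap]
    · simp [h1, h2, Res.swap]
    · omega

theorem ofW_W (W : ι → ι → ℤ) (hW : IsT W) (x y : ι) : (ofW W hW).W x y = W x y := by
  unfold Tournament.W ofW
  by_cases hxy : y = x
  · subst hxy
    simp [hW.self]
  · rcases hW.1 x y with h1 | h1
    · rcases hW.1 y x with h2 | h2 <;> simp [h1, h2]
    · simp [hxy, h1]

theorem ofW_wins (W : ι → ι → ℤ) (hW : IsT W) (x : ι) : ((ofW W hW).wins x : ℤ) = out W x := by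
  rw [Tournament.wins_eq]
  simp only [ofW_W]
  rfl

theorem ofW_losses (W : ι → ι → ℤ) (hW : IsT W) (x : ι) :
    ((ofW W hW).losses x : ℤ) = inn W x := by
  rw [Tournament.losses_eq]
  simp only [ofW_W]
  rfl

theorem blk_nonneg (τ : ι → κ) {W : ι → ι → ℤ} (hW : IsT W) (s t : κ) : 0 ≤ blk τ W s t :=
  Finset.sum_nonneg fun x _ => Finset.sum_nonneg fun y _ => by
    split
    · rcases hW.1 x y with h | h <;> omega
    · exact le_refl _

theorem blk_add_le (τ : ι → κ) {W : ι → ι → ℤ} (hW : IsT W) (s t : κ) :
    blk τ W s t + blk τ W t s ≤ sz τ s * sz τ t - if s = t then sz τ s else 0 := by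
  have h1 : blk τ W t s = ∑ x, ∑ y, if τ x = s ∧ τ y = t then W y x else 0 := by
    unfold blk
    rw [Finset.sum_comm]
    refine Finset.sum_congr rfl fun x _ => Finset.sum_congr rfl fun y _ => ?_
    simp only [and_comm]
  rw [h1]
  unfold blk
  rw [← Finset.sum_add_distrib]
  have h2 : ∀ x, (∑ y, if τ x = s ∧ τ y = t then W x y else 0)
      + (∑ y, if τ x = s ∧ τ y = t then W y x else 0)
      ≤ (if τ x = s then (1 : ℤ) else 0) * sz τ t
        - (if s = t then (if τ x = s then (1 : ℤ) else 0) else 0) := by
    intro x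
    rw [← Finset.sum_add_distrib, sz_eq, Finset.mul_sum]
    have h3 : (if s = t then (if τ x = s then (1 : ℤ) else 0) else 0)
        = ∑ y, if x = y then (if s = t then (if τ x = s then (1 : ℤ) else 0) else 0) else 0 := by
      simp
    rw [h3, ← Finset.sum_sub_distrib]
    refine Finset.sum_le_sum fun y _ => ?_
    by_cases hx : τ x = s
    · by_cases hy : τ y = t
      · by_cases hxy : x = y
        · subst hxy
          have hst : s = t := hx.symm.trans hy
          subst hst
          simp [hx, hW.self]
        · have := hW.2 x y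
          simp [hx, hy, hxy, this]
      · by_cases hxy : x = y
        · subst hxy
          have hst : ¬ s = t := fun e => hy (hx.trans e)
          simp [hx, hy, hst]
        · simp [hx, hy, hxy]
    · simp [hx]
  refine (Finset.sum_le_sum fun x _ => h2 x).trans ?_
  rw [Finset.sum_sub_distrib, ← Finset.sum_mul, ← sz_eq]
  refine le_of_eq ?_
  congr 1
  by_cases hst : s = t
  · simp only [hst, if_true]
    exact (sz_eq τ t).symm
  · simp [hst]

end

variable {n k : ℕ}

theorem few_back (b : ℕ) (c : Fin n → Fin k) (v W q : Fin k → ℕ)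
    (a : Fin k × Bool → Fin k × Bool → ℕ)
    (h : Feasible (b + 1) n (fun u => (Finset.univ.filter fun i => c i = u).card) v W q a) :
    ∃ T : Tournament (Fin n), ∀ i, T.score (b + 1) i = v (c i) := by
  choose Q hQ hQc using fun u => Finset.exists_subset_card_eq (h.q_le u)
  let τ : Fin n → Fin k × Bool := fun i => (c i, decide (i ∈ Q (c i)))
  have ht : ∀ u, (Finset.univ.filter fun i => τ i = (u, true)) = Q u := by
    intro u
    ext i
    simp only [Finset.mem_filter, Finset.mem_univ, true_and, τ, Prod.mk.injEq, decide_eq_true_eq]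
    constructor
    · rintro ⟨rfl, h2⟩
      exact h2
    · intro h2
      have h3 : c i = u := (Finset.mem_filter.1 (hQ u h2)).2
      exact ⟨h3, h3 ▸ h2⟩
  have hf : ∀ u, (Finset.univ.filter fun i => τ i = (u, false))
      = (Finset.univ.filter fun i => c i = u) \ Q u := by
    intro u
    ext i
    simp only [Finset.mem_filter, Finset.mem_univ, true_and, τ, Prod.mk.injEq,
      decide_eq_false_iff_not, Finset.mem_sdiff]
    constructor
    · rintro ⟨rfl, h2⟩
      exact ⟨rfl, h2⟩
    · rintro ⟨rfl, h2⟩
      exact ⟨rfl, h2⟩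
  have hsz : ∀ t, sz τ t
      = (typeSize (fun u => (Finset.univ.filter fun i => c i = u).card) q t : ℤ) := by
    rintro ⟨u, e⟩
    unfold sz typeSize
    cases e
    · rw [hf, Finset.card_sdiff_of_subset (hQ u), hQc]
      simp
    · rw [ht, hQc]
      simp
  obtain ⟨W₀, hW₀, hb⟩ := exists_blocks τ (fun s t => (a s t : ℤ)) (fun s t => by positivity)
    (by
      intro s t hst
      rw [hsz, hsz]
      exact_mod_cast h.block s t hst)
    (by
      intro s
      have h1 := h.inner s
      rw [hsz]
      generalize typeSize (fun u => (Finset.univ.filter fun i => c i = u).card) q s = m at *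
      rcases Nat.eq_zero_or_pos m with hm | hm
      · subst hm
        simp at h1 ⊢
        omega
      · obtain ⟨r, rfl⟩ := Nat.exists_eq_add_of_lt hm
        have h2 : 0 + r + 1 - 1 = r := by omega
        rw [h2] at h1
        have h3 : (2 * (a s s : ℤ)) ≤ ((0 + r + 1 : ℕ) : ℤ) * (r : ℤ) := by exact_mod_cast h1
        push_cast at h3 ⊢
        linarith)
  obtain ⟨W', hW', hx⟩ := types τ W₀ hW₀ (fun t => (typeWins W t : ℤ))
    (fun t => ((n - 1 + b * typeWins W t : ℕ) : ℤ) - v t.1)
    (by
      intro t
      simp only [hb]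
      change ∑ s, (a t s : ℤ) = sz τ t * _
      have h2 : ((∑ s, a t s : ℕ) : ℤ) = ((typeSize (fun u =>
        (Finset.univ.filter fun i => c i = u).card) q t * typeWins W t : ℕ) : ℤ) := by
        exact_mod_cast h.wins t
      rw [Nat.cast_mul, ← hsz, Nat.cast_sum] at h2
      exact h2)
    (by
      intro t
      simp only [hb]
      have h2 : ((∑ s, a s t + typeSize (fun u =>
        (Finset.univ.filter fun i => c i = u).card) q t * v t.1 : ℕ) : ℤ) = ((typeSize (fun u =>
        (Finset.univ.filter fun i => c i = u).card) q t * (n - 1 + b * typeWins W t) : ℕ) : ℤ) := by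
        exact_mod_cast h.losses t
      rw [Nat.cast_add, Nat.cast_mul, Nat.cast_mul, ← hsz, Nat.cast_sum] at h2
      change ∑ s, (a s t : ℤ) = sz τ t * _
      linear_combination h2)
  refine ⟨ofW W' hW', fun i => ?_⟩
  have h1 := ofW_wins W' hW' i
  have h2 := ofW_losses W' hW' i
  rw [(hx i).1] at h1
  rw [(hx i).2] at h2
  have h3 := (ofW W' hW').wins_add i
  rw [Fintype.card_fin] at h3
  unfold Tournament.score
  have h4 : (τ i).1 = c i := rfl
  rw [h4] at h2
  have h5 : ((b * (ofW W' hW').wins i : ℕ) : ℤ) = ((b * typeWins W (τ i) : ℕ) : ℤ) := by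
    push_cast
    rw [h1]
  rw [add_mul, one_mul]
  generalize b * (ofW W' hW').wins i = m1 at *
  generalize b * typeWins W (τ i) = m2 at *
  omega

theorem few_fwd (b : ℕ) (hb : 1 ≤ b) (c : Fin n → Fin k) (v : Fin k → ℕ)
    (h : ∃ T : Tournament (Fin n), ∀ i, T.score (b + 1) i = v (c i)) :
    ∃ (W q : Fin k → ℕ) (a : Fin k × Bool → Fin k × Bool → ℕ),
      (∀ u, W u ≤ n ^ 2) ∧ (∀ u, q u ≤ n ^ 2) ∧ (∀ s t, a s t ≤ n ^ 2) ∧
      Feasible (b + 1) n (fun u => (Finset.univ.filter fun i => c i = u).card) v W q a := by
  obtain ⟨T, hT⟩ := h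
  have hσ : ∀ x, b * out T.W x - inn T.W x = ((v (c x) : ℕ) : ℤ) - ((n - 1 : ℕ) : ℤ) := by
    intro x
    have h1 := T.wins_add x
    rw [Fintype.card_fin] at h1
    have h2 := hT x
    unfold Tournament.score at h2
    have h3 : (T.wins x : ℤ) = out T.W x := T.wins_eq x
    have h4 : (T.losses x : ℤ) = inn T.W x := T.losses_eq x
    rw [← h3, ← h4]
    have h5 : ((b * T.wins x : ℕ) : ℤ) = (b : ℤ) * (T.wins x : ℤ) := by push_cast; ring
    rw [← h5]
    rw [add_mul, one_mul] at h2
    generalize b * T.wins x = m1 at *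
    omega
  obtain ⟨X, hX, hs, htie⟩ := ties T.W (isT_of_tournament T) b hb _ hσ
  have hout : ∀ i, out X i ≤ n := by
    intro i
    have : out X i ≤ ∑ y : Fin n, (1 : ℤ) :=
      Finset.sum_le_sum fun y _ => by rcases hX.1 i y with h | h <;> omega
    simpa using this
  have hm : ∀ u : Fin k, ∃ m : ℕ, m ≤ n ∧ ∀ i, c i = u → (out X i = m ∨ out X i = m + 1) := by
    intro u
    rcases (Finset.univ.filter fun i => c i = u).eq_empty_or_nonempty with he | hne
    · refine ⟨0, Nat.zero_le _, fun i hi => ?_⟩
      have : i ∈ (Finset.univ.filter fun i => c i = u) := by simp [hi]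
      rw [he] at this
      simp at this
    · obtain ⟨i0, hi0, hmin⟩ := Finset.exists_min_image _ (out X) hne
      have h0 := out_nonneg hX i0
      have h1 := hout i0
      have hc0 : c i0 = u := (Finset.mem_filter.1 hi0).2
      refine ⟨(out X i0).toNat, by omega, fun i hi => ?_⟩
      have h2 := hmin i (by simp [hi])
      have h3 := htie i i0 (by rw [hi, hc0])
      omega
  choose m hmn hmi using hm
  let τ : Fin n → Fin k × Bool := fun i => (c i, decide (out X i = m (c i) + 1))
  let N : Fin k → ℕ := fun u => (Finset.univ.filter fun i => c i = u).card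
  let q : Fin k → ℕ := fun u => (Finset.univ.filter fun i => τ i = (u, true)).card
  have hN : ∀ u, N u = q u + (Finset.univ.filter fun i => τ i = (u, false)).card := by
    intro u
    have h1 := Finset.card_filter_add_card_filter_not (s := Finset.univ.filter fun i => c i = u)
      (fun i => out X i = m (c i) + 1)
    rw [Finset.filter_filter, Finset.filter_filter] at h1
    have e1 : (Finset.univ.filter fun i => τ i = (u, true))
        = Finset.univ.filter fun i => c i = u ∧ out X i = m (c i) + 1 := by
      ext i
      simp [τ]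
    have e2 : (Finset.univ.filter fun i => τ i = (u, false))
        = Finset.univ.filter fun i => c i = u ∧ ¬ out X i = m (c i) + 1 := by
      ext i
      simp [τ]
    simp only [N, q]
    rw [e1, e2]
    exact h1.symm
  have hsz : ∀ t, sz τ t = (typeSize N q t : ℤ) := by
    rintro ⟨u, e⟩
    unfold sz typeSize
    cases e
    · have := hN u
      simp only [Bool.false_eq_true, if_false]
      omega
    · simp [q]
  have hw : ∀ i, out X i = typeWins m (τ i) := by
    intro i
    unfold typeWins
    by_cases h1 : out X i = m (c i) + 1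
    · simp [τ, h1]
    · have h2 := hmi (c i) i rfl
      have h3 : out X i = m (c i) := by tauto
      simp [τ, h3]
  have hNn : ∀ u, N u ≤ n := fun u => (Finset.card_filter_le _ _).trans (by simp)
  have hszn : ∀ t, typeSize N q t ≤ n := by
    rintro ⟨u, e⟩
    have := hNn u
    have := hN u
    unfold typeSize
    split <;> simp only [] at * <;> omega
  have hn2 : n ≤ n ^ 2 := by nlinarith [Nat.zero_le n, sq_nonneg (n : ℤ)]
  let a : Fin k × Bool → Fin k × Bool → ℕ := fun s t => (blk τ X s t).toNat
  have ha : ∀ s t, ((a s t : ℕ) : ℤ) = blk τ X s t := by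
    intro s t
    have := blk_nonneg τ hX s t
    simp only [a]
    omega
  have hab : ∀ s t, a s t ≤ typeSize N q s * typeSize N q t := by
    intro s t
    have h1 := blk_add_le τ hX s t
    have h2 := blk_nonneg τ hX t s
    have h3 : (0 : ℤ) ≤ if s = t then sz τ s else 0 := by
      split
      · rw [hsz]; positivity
      · exact le_refl _
    rw [hsz, hsz] at h1
    have h4 := ha s t
    have h5 : ((a s t : ℕ) : ℤ) ≤ ((typeSize N q s * typeSize N q t : ℕ) : ℤ) := by
      push_cast
      rw [hsz] at h3
      linarith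
    exact_mod_cast h5
  refine ⟨m, q, a, fun u => (hmn u).trans hn2, fun u => ?_, fun s t => ?_, ?_⟩
  · have := hN u
    have := hNn u
    omega
  · calc a s t ≤ typeSize N q s * typeSize N q t := hab s t
      _ ≤ n * n := Nat.mul_le_mul (hszn s) (hszn t)
      _ = n ^ 2 := by ring
  · refine ⟨fun u => ?_, fun s t hst => ?_, fun s => ?_, fun s => ?_, fun s => ?_⟩
    · have := hN u
      change q u ≤ N u
      omega
    · have h1 := blk_add_le τ hX s t
      rw [if_neg hst, hsz, hsz, ← ha, ← ha, sub_zero] at h1
      exact_mod_cast h1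
    · have h1 := blk_add_le τ hX s s
      rw [if_pos rfl, hsz, ← ha] at h1
      change 2 * a s s ≤ typeSize N q s * (typeSize N q s - 1)
      generalize typeSize N q s = r at *
      rcases Nat.eq_zero_or_pos r with hr | hr
      · subst hr
        simp at h1 ⊢
        omega
      · obtain ⟨r', rfl⟩ := Nat.exists_eq_add_of_lt hr
        have h2 : 0 + r' + 1 - 1 = r' := by omega
        rw [h2]
        have h3 : ((2 * a s s : ℕ) : ℤ) ≤ (((0 + r' + 1) * r' : ℕ) : ℤ) := by
          push_cast at h1 ⊢
          linarith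
        exact_mod_cast h3
    · have h1 := sum_blk_out τ X s
      have h2 : ∑ x ∈ Finset.univ.filter (fun x => τ x = s), out X x
          = sz τ s * (typeWins m s : ℤ) := by
        rw [Finset.sum_congr rfl (g := fun _ => (typeWins m s : ℤ)), Finset.sum_const,
          nsmul_eq_mul]
        · rfl
        · intro x hx
          rw [hw, (Finset.mem_filter.1 hx).2]
      rw [h2, hsz] at h1
      have h3 : ((∑ t, a s t : ℕ) : ℤ) = ((typeSize N q s * typeWins m s : ℕ) : ℤ) := by
        push_cast
        rw [← h1]
        exact Finset.sum_congr rfl fun t _ => ha s t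
      exact_mod_cast h3
    · have h1 := sum_blk_inn τ X s
      have h2 : ∑ x ∈ Finset.univ.filter (fun x => τ x = s), inn X x
          = sz τ s * (((n - 1 + b * typeWins m s : ℕ) : ℤ) - v s.1) := by
        rw [Finset.sum_congr rfl (g := fun _ => (((n - 1 + b * typeWins m s : ℕ) : ℤ) - v s.1)),
          Finset.sum_const, nsmul_eq_mul]
        · rfl
        · intro x hx
          have hx' : τ x = s := (Finset.mem_filter.1 hx).2
          have h3 := hs x
          have h4 := hw x
          have h5 : c x = s.1 := by rw [← hx']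
          rw [hx'] at h4
          rw [h5, h4] at h3
          push_cast
          linarith
      rw [h2, hsz] at h1
      have h3 : ((∑ t, a t s + typeSize N q s * v s.1 : ℕ) : ℤ)
          = ((typeSize N q s * (n - 1 + b * typeWins m s) : ℕ) : ℤ) := by
        rw [Nat.cast_add, Nat.cast_mul, Nat.cast_mul, Nat.cast_sum]
        have h4 : ∑ t, ((a t s : ℕ) : ℤ) = ∑ t, blk τ X t s :=
          Finset.sum_congr rfl fun t _ => ha t s
        rw [h4, h1]
        ring
      exact_mod_cast h3

end Pool.Agent.Work.MP_1a5986_lc.Few
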