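import Pool.Agent.Work.MP_1a5986_lc.Few.Ex

namespace Pool.Agent.Work.MP_1a5986_lc.Few

open Finset

set_option linter.unusedSectionVars false

variable {ι : Type} [Fintype ι] [DecidableEq ι]

/-- zero or one of the six differences of two results -/
def Root (a b : ℤ) : Prop :=
  (a = 0 ∧ b = 0) ∨ (a = 1 ∧ b = 0) ∨ (a = -1 ∧ b = 0) ∨ (a = 0 ∧ b = 1) ∨
    (a = 0 ∧ b = -1) ∨ (a = 1 ∧ b = -1) ∨ (a = -1 ∧ b = 1)

instance (a b : ℤ) : Decidable (Root a b) := by
  unfold Root; infer_instance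

theorem Root.pm {a b c d : ℤ} (h : Root a b) (h' : Root c d) :
    Root (a + c) (b + d) ∨ Root (a - c) (b - d) := by
  rcases h with ⟨rfl, rfl⟩ | ⟨rfl, rfl⟩ | ⟨rfl, rfl⟩ | ⟨rfl, rfl⟩ | ⟨rfl, rfl⟩ | ⟨rfl, rfl⟩ |
    ⟨rfl, rfl⟩ <;>
  rcases h' with ⟨rfl, rfl⟩ | ⟨rfl, rfl⟩ | ⟨rfl, rfl⟩ | ⟨rfl, rfl⟩ | ⟨rfl, rfl⟩ | ⟨rfl, rfl⟩ |
    ⟨rfl, rfl⟩ <;> decide

theorem Root.norm_le {a b : ℤ} (h : Root a b) : a * a + a * b + b * b ≤ 1 := by
  rcases h with ⟨rfl, rfl⟩ | ⟨rfl, rfl⟩ | ⟨rfl, rfl⟩ | ⟨rfl, rfl⟩ | ⟨rfl, rfl⟩ | ⟨rfl, rfl⟩ |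
    ⟨rfl, rfl⟩ <;> norm_num

theorem signed_sum {α : Type} [DecidableEq α] (f g : α → ℤ) (hr : ∀ z, Root (f z) (g z))
    (S : Finset α) :
    ∃ U ⊆ S, Root (∑ z ∈ S, f z - 2 * ∑ z ∈ U, f z) (∑ z ∈ S, g z - 2 * ∑ z ∈ U, g z) := by
  induction S using Finset.induction_on with
  | empty => exact ⟨∅, by simp, by simp [Root]⟩
  | insert z S hz ih =>
    obtain ⟨U, hU, h⟩ := ih
    have hzU : z ∉ U := fun h' => hz (hU h')
    rcases h.pm (hr z) with h1 | h1
    · refine ⟨U, hU.trans (Finset.subset_insert _ _), ?_⟩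
      rw [Finset.sum_insert hz, Finset.sum_insert hz]
      have e1 : f z + ∑ z ∈ S, f z - 2 * ∑ z ∈ U, f z
          = ∑ z ∈ S, f z - 2 * ∑ z ∈ U, f z + f z := by ring
      have e2 : g z + ∑ z ∈ S, g z - 2 * ∑ z ∈ U, g z
          = ∑ z ∈ S, g z - 2 * ∑ z ∈ U, g z + g z := by ring
      rw [e1, e2]
      exact h1
    · refine ⟨insert z U, Finset.insert_subset_insert z hU, ?_⟩
      rw [Finset.sum_insert hz, Finset.sum_insert hz, Finset.sum_insert hzU,
        Finset.sum_insert hzU]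
      have e1 : f z + ∑ z ∈ S, f z - 2 * (f z + ∑ z ∈ U, f z)
          = ∑ z ∈ S, f z - 2 * ∑ z ∈ U, f z - f z := by ring
      have e2 : g z + ∑ z ∈ S, g z - 2 * (g z + ∑ z ∈ U, g z)
          = ∑ z ∈ S, g z - 2 * ∑ z ∈ U, g z - g z := by ring
      rw [e1, e2]
      exact h1

/-- a quadratic potential -/
def Phi (W : ι → ι → ℤ) : ℤ :=
  ∑ x, (out W x * out W x + out W x * inn W x + inn W x * inn W x)

theorem Phi_sw {W : ι → ι → ℤ} (h : IsT W) {i j : ι} (hij : i ≠ j) (S : Finset ι) (X Y : ℤ)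
    (hX : ∑ z ∈ S, dw W i j z = X) (hY : ∑ z ∈ S, dl W i j z = Y) :
    2 * Phi (sw W i j S) = 2 * Phi W
      + (((out W i - out W j) - 2 * X) * ((out W i - out W j) - 2 * X)
        + ((out W i - out W j) - 2 * X) * ((inn W i - inn W j) - 2 * Y)
        + ((inn W i - inn W j) - 2 * Y) * ((inn W i - inn W j) - 2 * Y))
      - ((out W i - out W j) * (out W i - out W j)
        + (out W i - out W j) * (inn W i - inn W j)
        + (inn W i - inn W j) * (inn W i - inn W j)) := by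
  have h1 : ∀ f : ι → ℤ, ∑ x, f x = f i + f j + ∑ x ∈ (univ.erase i).erase j, f x := by
    intro f
    rw [add_assoc, Finset.add_sum_erase _ f (Finset.mem_erase.2 ⟨hij.symm, Finset.mem_univ j⟩),
      Finset.add_sum_erase _ f (Finset.mem_univ i)]
  unfold Phi
  rw [h1, h1 (fun x => out W x * out W x + out W x * inn W x + inn W x * inn W x)]
  have h2 : ∑ x ∈ (univ.erase i).erase j, (out (sw W i j S) x * out (sw W i j S) x
      + out (sw W i j S) x * inn (sw W i j S) x + inn (sw W i j S) x * inn (sw W i j S) x)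
      = ∑ x ∈ (univ.erase i).erase j,
        (out W x * out W x + out W x * inn W x + inn W x * inn W x) := by
    refine Finset.sum_congr rfl fun x hx => ?_
    rw [Finset.mem_erase, Finset.mem_erase] at hx
    rw [sw_out_other hij S hx.2.1 hx.1, sw_inn_other hij S hx.2.1 hx.1]
  rw [h2, sw_out_i h hij, sw_out_j h hij, sw_inn_i h hij, sw_inn_j h hij, hX, hY]
  ring

/-- total number of wins of the type `s` over the type `t` -/
def blk {κ : Type} [DecidableEq κ] (τ : ι → κ) (W : ι → ι → ℤ) (s t : κ) : ℤ :=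
  ∑ x, ∑ y, if τ x = s ∧ τ y = t then W x y else 0

theorem out_nonneg {W : ι → ι → ℤ} (h : IsT W) (x : ι) : 0 ≤ out W x :=
  Finset.sum_nonneg fun y _ => by rcases h.1 x y with h1 | h1 <;> omega

theorem inn_nonneg {W : ι → ι → ℤ} (h : IsT W) (x : ι) : 0 ≤ inn W x :=
  Finset.sum_nonneg fun y _ => by rcases h.1 y x with h1 | h1 <;> omega

theorem Phi_nonneg {W : ι → ι → ℤ} (h : IsT W) : 0 ≤ Phi W := by
  refine Finset.sum_nonneg fun x _ => ?_
  have h1 := out_nonneg h x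
  have h2 := inn_nonneg h x
  positivity

/-- A tournament with the same block totals, almost constant on types. -/
theorem balanced {κ : Type} [DecidableEq κ] (τ : ι → κ) (W₀ : ι → ι → ℤ) (h₀ : IsT W₀) :
    ∃ W : ι → ι → ℤ, IsT W ∧ (∀ s t, blk τ W s t = blk τ W₀ s t) ∧
      ∀ i j, τ i = τ j → out W i - out W j ≤ 1 ∧ inn W i - inn W j ≤ 1 := by
  let A : Set (ι → ι → ℤ) := {W | IsT W ∧ ∀ s t, blk τ W s t = blk τ W₀ s t}
  obtain ⟨W, hW, hmin⟩ := WellFounded.has_min (measure fun W : ι → ι → ℤ => (Phi W).toNat).wf A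
    ⟨W₀, h₀, fun _ _ => rfl⟩
  refine ⟨W, hW.1, hW.2, fun i j hτ => ?_⟩
  rcases eq_or_ne i j with rfl | hij
  · simp
  obtain ⟨U, -, hU⟩ := signed_sum (dw W i j) (dl W i j) (root hW.1 i j) Finset.univ
  rw [sum_dw hW.1 hij, sum_dl hW.1 hij] at hU
  have hn := hU.norm_le
  have hP := Phi_sw hW.1 hij U _ _ rfl rfl
  have hA : sw W i j U ∈ A := by
    refine ⟨sw_isT hW.1 i j U, fun s t => ?_⟩
    rw [← hW.2 s t]
    exact sw_block τ hτ W U s t
  have hm := hmin _ hA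
  have hm' : (Phi W).toNat ≤ (Phi (sw W i j U)).toNat := not_lt.1 hm
  have p1 := Phi_nonneg hW.1
  have p2 := Phi_nonneg (sw_isT hW.1 i j U)
  have hm'' : Phi W ≤ Phi (sw W i j U) := by omega
  generalize out W i - out W j = a at *
  generalize inn W i - inn W j = b at *
  have hab : a * a + a * b + b * b ≤ 1 := by linarith
  constructor
  · nlinarith [sq_nonneg (a + 2 * b)]
  · nlinarith [sq_nonneg (2 * a + b)]

theorem const_of_close {S : Finset ι} (f : ι → ℤ) (c : ℤ)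
    (hc : ∀ i ∈ S, ∀ j ∈ S, f i - f j ≤ 1) (hs : ∑ i ∈ S, f i = (S.card : ℤ) * c) :
    ∀ i ∈ S, f i = c := by
  intro i hi
  by_contra hne
  rcases lt_or_gt_of_ne hne with h | h
  · -- all values are at most `c`
    have h1 : ∑ j ∈ S, f j < ∑ j ∈ S, c :=
      Finset.sum_lt_sum (fun j hj => by have := hc j hj i hi; omega) ⟨i, hi, h⟩
    rw [Finset.sum_const, nsmul_eq_mul] at h1
    omega
  · have h1 : ∑ j ∈ S, c < ∑ j ∈ S, f j :=
      Finset.sum_lt_sum (fun j hj => by have := hc i hi j hj; omega) ⟨i, hi, h⟩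
    rw [Finset.sum_const, nsmul_eq_mul] at h1
    omega

theorem sum_blk_out {κ : Type} [Fintype κ] [DecidableEq κ] (τ : ι → κ) (W : ι → ι → ℤ) (s : κ) :
    ∑ t, blk τ W s t = ∑ x ∈ Finset.univ.filter (fun x => τ x = s), out W x := by
  unfold blk out
  rw [Finset.sum_comm, Finset.sum_filter]
  refine Finset.sum_congr rfl fun x _ => ?_
  rw [Finset.sum_comm]
  by_cases hx : τ x = s
  · simp [hx]
  · simp [hx]

theorem sum_blk_inn {κ : Type} [Fintype κ] [DecidableEq κ] (τ : ι → κ) (W : ι → ι → ℤ) (t : κ) :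
    ∑ s, blk τ W s t = ∑ y ∈ Finset.univ.filter (fun y => τ y = t), inn W y := by
  have h : ∀ s, blk τ W s t = ∑ y, ∑ x, if τ x = s ∧ τ y = t then W x y else 0 := by
    intro s
    unfold blk
    rw [Finset.sum_comm]
  simp only [h]
  unfold inn
  rw [Finset.sum_comm, Finset.sum_filter]
  refine Finset.sum_congr rfl fun y _ => ?_
  rw [Finset.sum_comm]
  by_cases hy : τ y = t
  · simp [hy]
  · simp [hy]

/-- Types with constant targets. -/
theorem types {κ : Type} [Fintype κ] [DecidableEq κ] (τ : ι → κ) (W₀ : ι → ι → ℤ) (h₀ : IsT W₀)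
    (w l : κ → ℤ)
    (hw : ∀ t, ∑ s, blk τ W₀ t s = ((Finset.univ.filter fun x => τ x = t).card : ℤ) * w t)
    (hl : ∀ t, ∑ s, blk τ W₀ s t = ((Finset.univ.filter fun x => τ x = t).card : ℤ) * l t) :
    ∃ W : ι → ι → ℤ, IsT W ∧ ∀ x, out W x = w (τ x) ∧ inn W x = l (τ x) := by
  obtain ⟨W, hW, hb, hc⟩ := balanced τ W₀ h₀
  refine ⟨W, hW, fun x => ⟨?_, ?_⟩⟩
  · refine const_of_close (S := Finset.univ.filter fun y => τ y = τ x) (out W) _ ?_ ?_ x (by simp)
    · intro i hi j hj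
      simp only [Finset.mem_filter, Finset.mem_univ, true_and] at hi hj
      exact (hc i j (hi.trans hj.symm)).1
    · rw [← hw, ← sum_blk_out]
      exact Finset.sum_congr rfl fun s _ => hb _ _
  · refine const_of_close (S := Finset.univ.filter fun y => τ y = τ x) (inn W) _ ?_ ?_ x (by simp)
    · intro i hi j hj
      simp only [Finset.mem_filter, Finset.mem_univ, true_and] at hi hj
      exact (hc i j (hi.trans hj.symm)).2
    · rw [← hl, ← sum_blk_inn]
      exact Finset.sum_congr rfl fun s _ => hb _ _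

end Pool.Agent.Work.MP_1a5986_lc.Few
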